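import Pool.Agent.helper85.PG.Spec

set_option autoImplicit false

namespace Pool.Agent.helper85.PG

open Module

/-- removing a rounded combination of short vectors -/
theorem QUO_round {E : Type} [NormedAddCommGroup E] [NormedSpace ℝ E] [FiniteDimensional ℝ E]
    {H : Type} [AddCommGroup H] (G : AddSubgroup (E × H)) (S : Set E) (L : ℝ) (hL : 0 ≤ L)
    (hS : ∀ v ∈ S, (v, (0 : H)) ∈ G ∧ ‖v‖ ≤ 2 * L) (w : E) (hw : w ∈ Submodule.span ℝ S) :
    ∃ g : E, (g, (0 : H)) ∈ G ∧ g ∈ Submodule.span ℝ S ∧ ‖w - g‖ ≤ finrank ℝ E * L := by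
  obtain ⟨b, hbS, hbs, hli⟩ := exists_linearIndependent ℝ S
  rw [← hbs] at hw
  have hfin : b.Finite := hli.setFinite
  have : Fintype b := hfin.fintype
  have hcard : Fintype.card b ≤ finrank ℝ E := hli.fintype_card_le_finrank
  have hw' : w ∈ Submodule.span ℝ (Set.range ((↑) : b → E)) := by
    rwa [Subtype.range_coe_subtype, Set.ofPred_mem_eq]
  obtain ⟨c, hc⟩ := (Submodule.mem_span_range_iff_exists_fun ℝ).1 hw'
  refine ⟨∑ i : b, (round (c i) : ℤ) • (i : E), ?_, ?_, ?_⟩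
  · have h1 : (∑ i : b, (round (c i) : ℤ) • (i : E), (0 : H)) =
        ∑ i : b, (round (c i) : ℤ) • ((i : E), (0 : H)) := by
      rw [Prod.ext_iff]
      constructor
      · rw [Prod.fst_sum]
        rfl
      · rw [Prod.snd_sum]
        simp
    rw [h1]
    exact G.sum_mem fun i _ => G.zsmul_mem (hS i (hbS i.2)).1 _
  · refine Submodule.sum_mem _ fun i _ => ?_
    have : (i : E) ∈ Submodule.span ℝ S := Submodule.subset_span (hbS i.2)
    exact zsmul_mem this _
  · have h2 : w - ∑ i : b, (round (c i) : ℤ) • (i : E) = ∑ i : b, (c i - round (c i)) • (i : E) := by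
      rw [← hc, ← Finset.sum_sub_distrib]
      refine Finset.sum_congr rfl fun i _ => ?_
      rw [sub_smul, Int.cast_smul_eq_zsmul]
    rw [h2]
    calc ‖∑ i : b, (c i - round (c i)) • (i : E)‖ ≤ ∑ i : b, ‖(c i - round (c i)) • (i : E)‖ :=
          norm_sum_le _ _
      _ ≤ ∑ _i : b, L := by
          refine Finset.sum_le_sum fun i _ => ?_
          rw [norm_smul, Real.norm_eq_abs]
          have h3 : |c i - round (c i)| ≤ 1 / 2 := abs_sub_round _
          have h4 := (hS i (hbS i.2)).2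
          have h5 : 0 ≤ ‖(i : E)‖ := norm_nonneg _
          nlinarith
      _ = Fintype.card b * L := by
          rw [Finset.sum_const, Finset.card_univ, nsmul_eq_mul]
      _ ≤ finrank ℝ E * L := by
          have : (Fintype.card b : ℝ) ≤ finrank ℝ E := by exact_mod_cast hcard
          exact mul_le_mul_of_nonneg_right this hL

theorem QUO : QUO_stmt := by
  intro p _ E _ _ _ G d l x hFB hdim hl hx hxG hxl
  set S : Set E := {v | (v, (0 : ZMod p)) ∈ G ∧ ‖v‖ ≤ 2 * l} with hSdef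
  set W : Submodule ℝ E := Submodule.span ℝ S with hW
  have hcl : IsClosed (W : Set E) := W.closed_of_finiteDimensional
  have hxW : x ∈ W := Submodule.subset_span ⟨hxG, hxl⟩
  have hWpos : 0 < finrank ℝ W := by
    have : Nontrivial W := ⟨⟨⟨x, hxW⟩, 0, fun h => hx (by simpa using congrArg Subtype.val h)⟩⟩
    exact finrank_pos
  let φ : E × ZMod p →+ (E ⧸ W) × ZMod p :=
    AddMonoidHom.prodMap W.mkQ.toAddMonoidHom (AddMonoidHom.id _)
  let G' : AddSubgroup ((E ⧸ W) × ZMod p) := G.map φ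
  have hφ : ∀ z : E × ZMod p, φ z = (Submodule.Quotient.mk z.1, z.2) := fun z => rfl
  have key : ∀ (x' : E ⧸ W) (y : ZMod p) (R : ℝ), (x', y) ∈ G' → ‖x'‖ ≤ R →
      ∃ x₂ : E, (x₂, y) ∈ G ∧ Submodule.Quotient.mk x₂ = x' ∧ ‖x₂‖ ≤ R + ((d : ℝ) + 2) * l := by
    intro x' y R hm hR
    obtain ⟨z, hz, hzz⟩ := AddSubgroup.mem_map.1 hm
    rw [hφ, Prod.mk.injEq] at hzz
    obtain ⟨x₀, hx₀, hx₀n⟩ := Submodule.Quotient.norm_mk_lt x' hl
    have hw : z.1 - x₀ ∈ W := by
      rw [← Submodule.Quotient.eq, hzz.1, hx₀]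
    obtain ⟨g, hg, hgW, hgn⟩ := QUO_round (H := ZMod p) G S l hl.le (fun v hv => hv) (z.1 - x₀) hw
    refine ⟨z.1 - g, ?_, ?_, ?_⟩
    · have h1 : (z.1 - g, y) = z - (g, (0 : ZMod p)) := by
        rw [Prod.ext_iff]
        exact ⟨rfl, by rw [← hzz.2]; simp⟩
      rw [h1]
      exact G.sub_mem hz hg
    · rw [← hzz.1, Submodule.Quotient.eq]
      have : z.1 - g - z.1 = -g := by abel
      rw [this]
      exact W.neg_mem hgW
    · have h2 : z.1 - g = x₀ + ((z.1 - x₀) - g) := by abel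
      have h3 : (finrank ℝ E : ℝ) ≤ d + 1 := by exact_mod_cast hdim
      have h4 : (finrank ℝ E : ℝ) * l ≤ (d + 1) * l := mul_le_mul_of_nonneg_right h3 hl.le
      calc ‖z.1 - g‖ ≤ ‖x₀‖ + ‖(z.1 - x₀) - g‖ := by
            conv_lhs => rw [h2]
            exact norm_add_le _ _
        _ ≤ (R + l) + (d + 1) * l := by linarith
        _ = R + ((d : ℝ) + 2) * l := by ring
  have hFB' : FB G' := by
    intro R
    refine ((hFB (R + ((d : ℝ) + 2) * l)).image φ).subset ?_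
    rintro ⟨x', y⟩ ⟨hm, hR⟩
    obtain ⟨x₂, h1, h2, h3⟩ := key x' y R hm hR
    exact ⟨(x₂, y), ⟨h1, h3⟩, by rw [hφ, h2]⟩
  refine ⟨PP G', ⟨E ⧸ W, inferInstance, inferInstance, G', inferInstance, ?_, hFB', fun R => rfl⟩, ?_, ?_⟩
  · have := Submodule.finrank_quotient_add_finrank W
    omega
  · intro y hy
    obtain ⟨x₁, h1, h2⟩ := (mem_PP G l y).1 hy
    refine (mem_PP G' l y).2 ⟨Submodule.Quotient.mk x₁, ?_, ?_⟩
    · exact AddSubgroup.mem_map.2 ⟨(x₁, y), h1, hφ _⟩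
    · exact (Submodule.Quotient.norm_mk_le W x₁).trans h2
  · intro y hy
    obtain ⟨x', h1, h2⟩ := (mem_PP G' l y).1 hy
    obtain ⟨x₂, h3, _, h5⟩ := key x' y l h1 h2
    refine (mem_PP G _ y).2 ⟨x₂, h3, h5.trans (le_of_eq ?_)⟩
    ring

end Pool.Agent.helper85.PG
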